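import Pool.Agent.Run7.h615.ES.Dim2

/-!
# Two-dimensional polarized geometric representations invariant under `Gal(ℚ̄/ℚ)` up to twists

Let `p ≥ 5`, let `K` be an arbitrary CM field (not necessarily solvable or Galois over `ℚ`), and `R` a
two-dimensional irreducible potentially semistable (geometric) representation of `Gal(ℚ̄/K)` over `ℚ̄_p`
with `R^∨ ≅ R^c ⊗ Ψ`, with distinct Hodge-Tate weights at every embedding.

Theorem. Suppose that for every `σ` in `Gal(ℚ̄/ℚ)` the conjugate of `R` by `σ` is isomorphic to a twist of
`R` by a character over some number field (depending on `σ`), and that for some complex conjugation `c`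
there is no number field over which `R(c x c⁻¹) = χ(x) R(x)` with a character `χ`. Then `R ≅ ρ_π` for an
algebraic essentially conjugate self-dual cuspidal automorphic representation `π` of `GL_2` over `K`. There
is no condition on the residual representation, on the places above `p`, or on the weights.

If `R` is strongly irreducible the invariance holds if and only if over some number field `R` is a twist of
the representation of a newform over `ℚ`.

Proof. For `σ` in `Gal(ℚ̄/ℚ)` there are a matrix `P(σ)` and a character `χ_σ` with
`R(σ x σ⁻¹) = χ_σ(x) P(σ) R(x) P(σ)⁻¹` on an open subgroup. If `M R M⁻¹ = χ R` on an open subgroup, then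
`χ² = 1` (determinants), so `χ = 1` on a smaller one, and `M` is scalar. So `P(σ)` is unique up to scalars,
`P(στ) = P(σ) P(τ)` up to scalars, and `P(x) = R(x)` up to scalars for `x` in `Gal(ℚ̄/K)`. The projective
representation `P` of `Gal(ℚ̄/ℚ)` lifts to a geometric representation (Tate), which is odd since `P(c)` is
not scalar, so up to a twist it belongs to a newform (Kisin, Emerton, Pan). The newform has a base change
to `K` (Dieulefait, Langlands), whose representation differs from `R` by a character of `Gal(ℚ̄/K)`.

The known facts are the fields of `Run7.h615.ES.GeoReps.Known`; `Run7.h615.ES.Chars` collects the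
properties of continuous characters.
-/

set_option autoImplicit false

namespace Pool.Agent.Results.MP_adf543_nt.InvariantDimensionTwo

open Run7.h615.ES

/-- Two-dimensional polarized geometric representations with distinct Hodge-Tate weights over CM fields
which are invariant under `Gal(ℚ̄/ℚ)` up to twists over number fields, and on which complex conjugation acts
nontrivially, are automorphic. -/
theorem result : ∀ (Γ E : Type) [Group Γ] [Field E] (O : Opens Γ) (C : Chars Γ E O)
    (D : GeoReps Γ E), D.Known C → ∀ H ∈ D.CMF, ∀ R, D.Geom H R → (∃ c ∈ D.Conj, Moves C H R c) →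
      ((∀ σ, TwInv C H R σ) → D.Pol H R → D.AutSD H R) ∧
      (SI O H R → ((∀ σ, TwInv C H R σ) ↔ ∃ g, TwIso C ⊤ (D.rho g) H R)) := by
  intro Γ E _ _ O C D h H hH R hR hodd
  refine ⟨fun hinv hpol => h.self_dual H hH R hR hpol (h.aut hH hR hinv hodd),
    fun hS => ⟨fun hinv => h.exists_form hH hR hS hinv hodd, ?_⟩⟩
  rintro ⟨g, hg⟩ σ
  exact h.inv_of_form hH hg σ

end Pool.Agent.Results.MP_adf543_nt.InvariantDimensionTwo
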