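import Pool.Agent.Run7.h306.FQ10
import Pool.Agent.W571.FM.Frob

/-!
# Representations which potentially contain a line at one place above `p` are monomial: all primes `p`

Let `p` be a prime number, `K` a number field (for example a CM field) and `v` a place of `K` above `p`
such that `v` splits completely in no cyclic extension of `K` of degree `p` which is unramified at all
finite places not above `p`. This holds if `v` is the only place above `p` and `K` has no everywhere
unramified cyclic extension of degree `p`, that is if `p` does not divide the class number of `K`; for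
example for `K = ℚ(ζ_{p^n})`, `p` a regular prime.

Let `R` be a continuous irreducible representation of `G_K` of any dimension `m` over a finite extension
`E` of `ℚ_p` (or over the fraction field of any Noetherian local domain with finite residue field of
characteristic `p`), unramified at the finite places not above `p` and residually unipotent, and let `E`
be so large that the characteristic polynomials of all `R(σ)` split over `E`.

THEOREM. If `R` potentially contains a line at `v` (for example if `R` is potentially ordinary at `v`),
then `R` is monomial: it is induced from a character of `G_L`, where `L / K` is an extension of degree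
`m` which is contained in a finite Galois extension of degree a power of `p`. In particular `m` is a
power of `p`.

The same is true for arbitrary number fields `K`, places `v` above `p` and arbitrary ramification, if `v`
splits completely in no cyclic extension of `K` of degree `p` which is contained in the field cut out by
`R`.

If `R` is moreover potentially semi-stable at the places above `p`, the character is algebraic, and `R`
is automorphic by class field theory and the automorphic induction of Arthur and Clozel. (This deduction
is not part of the formal proof.)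
-/

set_option autoImplicit false

namespace Pool.Agent.Results.MP_adf543_nt.MonomialAllPrimes

open Matrix IsLocalRing NumberField

section
variable (K : Type) [Field K]

/-- The absolute Galois group of `K`. -/
abbrev G : Type := Gal(AlgebraicClosure K/K)

/-- The ring of all algebraic integers in the algebraic closure of `K`. -/
abbrev O : Type := 𝓞 (AlgebraicClosure K)

variable {K}

/-- The inertia group at the maximal ideal `P` of the ring of all algebraic integers. -/
def Inertia (P : Ideal (O K)) : Set (G K) := {g | ∀ x : O K, g • x - x ∈ P}

/-- The decomposition group at the maximal ideal `P` of the ring of all algebraic integers. -/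
def Decomposition (P : Ideal (O K)) : Set (G K) := {g | ∀ x : O K, g • x ∈ P ↔ x ∈ P}

/-- The place `v` below `P` splits completely in no cyclic extension of `K` of degree `p` which is
unramified at the finite places not above `p`: a homomorphism from the absolute Galois group to `ℤ/p` with
open kernel vanishes if it vanishes on the inertia groups at all `Q` not above `p` and on the
decomposition group at `P`. -/
def NoSplit (p : ℕ) (P : Ideal (O K)) : Prop :=
  ∀ f : G K →* Multiplicative (ZMod p), IsOpen (f.ker : Set (G K)) →
    (∀ Q : Ideal (O K), Q.IsMaximal → (p : O K) ∉ Q → ∀ g ∈ Inertia Q, f g = 1) →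
    (∀ g ∈ Decomposition P, f g = 1) → ∀ g, f g = 1

variable (K) in
/-- `K` has no cyclic extension of degree `p` which is unramified at all finite places. -/
def NoUnramified (p : ℕ) : Prop :=
  ∀ f : G K →* Multiplicative (ZMod p), IsOpen (f.ker : Set (G K)) →
    (∀ Q : Ideal (O K), Q.IsMaximal → ∀ g ∈ Inertia Q, f g = 1) → ∀ g, f g = 1

variable (K) in
/-- There is only one prime ideal of the ring of integers of `K` that contains `p`. -/
def OnePlace (p : ℕ) : Prop :=
  ∀ I J : Ideal (𝓞 K), I.IsPrime → J.IsPrime → (p : 𝓞 K) ∈ I → (p : 𝓞 K) ∈ J → I = J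

/-- The representation `ρ` is continuous and residually unipotent. -/
structure Admissible {A : Type} [CommRing A] [IsLocalRing A] [TopologicalSpace A] {n : ℕ}
    (ρ : G K →* GL (Fin n) A) : Prop where
  cont : ∀ i j, Continuous fun g => (ρ g : Matrix (Fin n) (Fin n) A) i j
  unipotent : ∀ g, ∃ m : ℕ, ∀ i j,
    (((ρ g : Matrix (Fin n) (Fin n) A) - 1) ^ m) i j ∈ maximalIdeal A

/-- `ρ` is unramified at the finite places not above `p`. -/
def UnramifiedOutside {A : Type} [CommRing A] (p : ℕ) {n : ℕ} (ρ : G K →* GL (Fin n) A) : Prop :=
  ∀ Q : Ideal (O K), Q.IsMaximal → (p : O K) ∉ Q → ∀ g ∈ Inertia Q, ρ g = 1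

/-- The place below `P` splits completely in no cyclic extension of `K` of degree `p` which is contained
in the field cut out by `ρ`. -/
def NoSplitIn {A : Type} [CommRing A] (p : ℕ) {n : ℕ} (ρ : G K →* GL (Fin n) A)
    (P : Ideal (O K)) : Prop :=
  ∀ f : G K →* Multiplicative (ZMod p), IsOpen (f.ker : Set (G K)) → (∀ g, ρ g = 1 → f g = 1) →
    (∀ g ∈ Decomposition P, f g = 1) → ∀ g, f g = 1

/-- The action of `g` on `V = F ^ n`. -/
noncomputable def act {A : Type} [CommRing A] (F : Type) [Field F] [Algebra A F] {n : ℕ}
    (ρ : G K →* GL (Fin n) A) (g : G K) (v : Fin n → F) : Fin n → F :=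
  ((ρ g : Matrix (Fin n) (Fin n) A).map (algebraMap A F)) *ᵥ v

/-- `V` is irreducible. -/
def Irreducible {A : Type} [CommRing A] (F : Type) [Field F] [Algebra A F] {n : ℕ}
    (ρ : G K →* GL (Fin n) A) : Prop :=
  ∀ W : Submodule F (Fin n → F), (∀ g, ∀ w ∈ W, act F ρ g w ∈ W) → W = ⊥ ∨ W = ⊤

/-- `V` potentially contains a line on `D`: some nonzero vector of `V` is an eigenvector of all
elements of a subgroup `D'`, finitely many left cosets of which cover `D`. -/
def PotentialLine {A : Type} [CommRing A] (F : Type) [Field F] [Algebra A F] {n : ℕ}
    (ρ : G K →* GL (Fin n) A) (D : Set (G K)) : Prop :=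
  ∃ (D' : Subgroup (G K)) (R : Set (G K)) (v : Fin n → F), R.Finite ∧
    (∀ δ ∈ D, ∃ r ∈ R, r⁻¹ * δ ∈ D') ∧ v ≠ 0 ∧ ∀ δ ∈ D', ∃ c : F, act F ρ δ v = c • v

/-- `V` is monomial: there are an open subgroup `L`, of index `n = dim V`, and a nonzero vector of `V`
which is an eigenvector of all elements of `L`, so that the irreducible representation `V` is induced
from the character of `L` on this vector; `L` contains an open normal subgroup `T` of index a power of
`p`. -/
def Monomial {A : Type} [CommRing A] (p : ℕ) (F : Type) [Field F] [Algebra A F] {n : ℕ}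
    (ρ : G K →* GL (Fin n) A) : Prop :=
  ∃ (T L : Subgroup (G K)) (u : Fin n → F), T.Normal ∧ IsOpen (T : Set (G K)) ∧
    (∃ a : ℕ, T.index = p ^ a) ∧ T ≤ L ∧ L.index = n ∧ u ≠ 0 ∧ ∀ g ∈ L, ∃ c : F, act F ρ g u = c • u

/-- The characteristic polynomials of all elements of the image split over `F`. -/
def Split {A : Type} [CommRing A] (F : Type) [Field F] [Algebra A F] {n : ℕ}
    (ρ : G K →* GL (Fin n) A) : Prop :=
  ∀ g : G K, ((ρ g : Matrix (Fin n) (Fin n) A).map (algebraMap A F)).charpoly.Splits

end

section
variable {K : Type} [Field K] [NumberField K]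

/-- the decomposition group as a subgroup -/
def DG (P : Ideal (O K)) : Subgroup (G K) where
  carrier := Decomposition P
  mul_mem' := by
    intro a b ha hb x
    rw [mul_smul, ha, hb]
  one_mem' := by
    intro x
    rw [one_smul]
  inv_mem' := by
    intro a ha x
    rw [← ha (a⁻¹ • x), smul_inv_smul]

theorem inertia_le {P : Ideal (O K)} {g : G K} (h : g ∈ Inertia P) : g ∈ Decomposition P := by
  intro x
  have h1 := h x
  constructor
  · intro h2
    have h3 := P.sub_mem h2 h1
    rwa [sub_sub_cancel] at h3
  · intro h2
    have h3 := P.add_mem h1 h2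
    rwa [sub_add_cancel] at h3

/-- one place above `p` and no unramified cyclic extension of degree `p` -/
theorem noSplit_of {p : ℕ} (h1 : OnePlace K p) (h2 : NoUnramified K p) {P : Ideal (O K)}
    (hP : P.IsMaximal) (hpP : (p : O K) ∈ P) : NoSplit p P := by
  intro f hf hur hD
  refine h2 f hf fun Q hQ g hg => ?_
  by_cases hpQ : (p : O K) ∈ Q
  · have hcm : Pool.Agent.W571.FM.cm P = Pool.Agent.W571.FM.cm Q := by
      have hP' := hP.isPrime
      have hQ' := hQ.isPrime
      refine h1 _ _ ?_ ?_ (Pool.Agent.W571.FM.natCast_mem_cm.2 hpP)
        (Pool.Agent.W571.FM.natCast_mem_cm.2 hpQ)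
      · exact Ideal.comap_isPrime _ P
      · exact Ideal.comap_isPrime _ Q
    obtain ⟨x, hx⟩ := Pool.Agent.W571.FM.exists_smul P Q hP.isPrime hQ.isPrime hcm
    have h3 : x⁻¹ * g * x ∈ Inertia P := Pool.Agent.W571.FM.inertia_conj hx hg
    have h4 := hD _ (inertia_le h3)
    rwa [map_mul, map_mul, map_inv, mul_comm, mul_inv_cancel_left] at h4
  · exact hur Q hQ hpQ g hg

theorem mono_of (p : ℕ) [Fact p.Prime] (A : Type) [CommRing A] [IsLocalRing A] [IsNoetherianRing A]
    [TopologicalSpace A] (hA : IsAdic (maximalIdeal A)) (hfin : Finite (ResidueField A))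
    (hpA : (p : A) ∈ maximalIdeal A) (F : Type) [Field F] [Algebra A F] [IsFractionRing A F] (n : ℕ)
    (ρ : G K →* GL (Fin n) A) (hρ : Admissible ρ) (hirr : Irreducible F ρ) (hsp : Split F ρ)
    (P : Ideal (O K)) (hP : NoSplitIn p ρ P) (hline : PotentialLine F ρ (Decomposition P)) :
    Monomial p F ρ := by
  obtain ⟨D', R, v, hRf, hR, hv, hD'⟩ := hline
  exact Pool.Agent.Run7.h306.FQ.mono_ab (p := p) hA hρ.cont (D := DG P)
    (Pool.Agent.Run7.h306.FQ.dense (p := p) hA hfin hpA hρ.cont hρ.unipotent (DG P)
      (fun f hf h1 h2 => hP f hf h1 h2))
    (Pool.Agent.Run7.h306.FQ.cong_pgroup hpA ρ hρ.unipotent) hRf hR hirr hsp hv hD'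

end

/-- **Irreducible representations which potentially contain a line at one place above `p` are
monomial.** Let `K` be a number field, `p` a prime number, `P` a maximal ideal above `p` of the ring of
all algebraic integers. (1) for `K` such that the place below `P` splits completely in no cyclic extension
of degree `p` unramified outside `p`; (2) such a splitting is impossible if there is only one place above
`p` and no everywhere unramified cyclic extension of degree `p`; (3) for all `K`, if the place below `P`
splits completely in no cyclic extension of degree `p` contained in the field cut out by `ρ`. -/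
theorem result (K : Type) [Field K] [NumberField K] (p : ℕ) [Fact p.Prime] (P : Ideal (O K))
    (hP : P.IsMaximal) (hpP : (p : O K) ∈ P) :
    -- (1)
    (NoSplit p P → ∀ (A : Type) [CommRing A] [IsLocalRing A] [IsNoetherianRing A]
      [TopologicalSpace A], IsAdic (maximalIdeal A) → Finite (ResidueField A) →
      (p : A) ∈ maximalIdeal A → ∀ (F : Type) [Field F] [Algebra A F] [IsFractionRing A F] (n : ℕ)
      (ρ : G K →* GL (Fin n) A), Admissible ρ → UnramifiedOutside p ρ → Irreducible F ρ → Split F ρ →
      PotentialLine F ρ (Decomposition P) → Monomial p F ρ) ∧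
    -- (2)
    (OnePlace K p → NoUnramified K p → NoSplit p P) ∧
    -- (3)
    (∀ (A : Type) [CommRing A] [IsLocalRing A] [IsNoetherianRing A]
      [TopologicalSpace A], IsAdic (maximalIdeal A) → Finite (ResidueField A) →
      (p : A) ∈ maximalIdeal A → ∀ (F : Type) [Field F] [Algebra A F] [IsFractionRing A F] (n : ℕ)
      (ρ : G K →* GL (Fin n) A), Admissible ρ → NoSplitIn p ρ P → Irreducible F ρ → Split F ρ →
      PotentialLine F ρ (Decomposition P) → Monomial p F ρ) := by
  refine ⟨fun hN A _ _ _ _ hA hfin hpA F _ _ _ n ρ hρ hur hirr hsp hline => ?_,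
    fun h1 h2 => noSplit_of h1 h2 hP hpP,
    fun A _ _ _ _ hA hfin hpA F _ _ _ n ρ hρ hN hirr hsp hline =>
      mono_of p A hA hfin hpA F n ρ hρ hirr hsp P hN hline⟩
  exact mono_of p A hA hfin hpA F n ρ hρ hirr hsp P
    (fun f hf h1 h2 => hN f hf (fun Q hQ hpQ g hg => h1 g (hur Q hQ hpQ g hg)) h2) hline

end Pool.Agent.Results.MP_adf543_nt.MonomialAllPrimes
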