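import Mathlib
import Pool.Agent.Run7.h55.KD.Polar
import Pool.Agent.Run7.h55.KD.Sign

/-!
# MP_adf543_nt: the automorphy of all polarized pairs follows from that of the totally odd ones

Let `K` be a CM field. For a pair `(R, Ψ)` as in the question and a real place `u` of `K⁺` let `J_u` be the pairing with
`ᵗR(g) J_u R(c_u g c_u) = Ψ(g)⁻¹ J_u` for `g ∈ G_K`; it is symmetric or alternating, and `(R, Ψ)` is totally odd if all
`J_u` are symmetric. The known automorphy theorems (and the known constructions of Galois representations) concern totally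
odd pairs. We say that `(R, Ψ)` is strongly automorphic if there is an algebraic essentially conjugate self-dual cuspidal
`π` such that the characteristic polynomial of `R(Frob_v)` is the one of `π_v` at ALL places `v` (which do not divide `p`)
at which `R` and `π` are unramified.

Results.
* (1) If all totally odd pairs of dimension `2m` are strongly automorphic, all pairs of dimension `m` are.
* (2) The following are equivalent, for every `k`: all pairs are strongly automorphic; the totally odd pairs whose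
  dimension is divisible by `2^k` are strongly automorphic.
* (3) If all totally odd pairs of dimension `2m` are automorphic in the sense of the question, then for every pair
  `(R, Ψ)` of dimension `m` there is an algebraic essentially conjugate self-dual cuspidal `π` on `GL(m)` (with
  the multiplier given by `Ψ`) such that `π ⊠ τ` is cuspidal and corresponds to `R ⊗ τ` for all `τ` of the right parity in
  general position, and the characteristic polynomials of `R(Frob_v)` and `π_v` are equal at all but finitely many `v`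
  at which such a `τ` is scalar. So the exceptional `v` have density `0`.
* (4) The pairing for `R ⊗ τ` has the sign `- det τ(c_u)` times the one for `R`.

Here `τ` runs through the two-dimensional representations of `G_{K⁺}` with finite image whose projective image is a Klein
four group. By (4) there is, for all `(R, Ψ)`, a `τ` such that `(R ⊗ τ, Ψ det τ⁻¹)` is totally odd.

Proof. Let `D` be the group of the four characters `δ` with `τ ⊗ δ ≅ τ`, and let `Π_τ` be the cuspidal representation which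
corresponds to `R ⊗ τ`. Then `C_τ = Π_τ ⊠ τ^∨` corresponds to `⊕_{δ ∈ D} R ⊗ δ`. By the theorem of Jacquet and Shalika
`⊞_{δ ∈ D'} C_τ ⊗ δ = ⊞_{δ ∈ D} C_τ' ⊗ δ` for all `τ`, `τ'`. Hence the constituents of all `C_τ` are twists of the finitely
many constituents of one of them, by characters in `D`; only finitely many characters carry one of these to another, and
for all `τ` for which `D` avoids them `C_τ = ⊞_{δ ∈ D} B ⊗ δ` with the same `B`. Tensoring with `τ` one obtains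
`B ⊠ τ = Π_τ`, so `B` is cuspidal. At a place `v` one compares the parameters by means of a `τ` which is scalar at `v`.
As no finite number of `τ` is enough (the Frobenius elements close to `c_u` are never seen), the exceptional sets of the
`Π_τ` must be under control; this is the reason for the strong form.
-/

set_option autoImplicit false

open Finset Matrix

namespace Pool.Agent.Results.MP_adf543_nt.TotallyOddPairs

open Run7.h55.KD

variable {P X U : Type} [CommGroup X]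

/-- `(R, Ψ)` is totally odd -/
def TotallyOdd (𝒦 : CMField P X U) (R : 𝒦.Pair) : Prop := ∀ u, 𝒦.sign R u = 1

/-- `π` is essentially conjugate self-dual, `π^c ≅ π^∨ ⊗ χ` with `χ = χ₀ ∘ N_{K/K⁺}` -/
def ConjSelfDual (𝒦 : CMField P X U) (π : 𝒦.Rep) : Prop := ∃ χ ∈ 𝒦.norms, 𝒦.conj π = 𝒦.twist χ (𝒦.dual π)

/-- the conclusion of the question: `ρ_π ≅ R` -/
def IsAutomorphic (𝒦 : CMField P X U) (R : 𝒦.Pair) : Prop :=
  ∃ π : 𝒦.Rep, 𝒦.deg π = 𝒦.dim R ∧ 𝒦.IsAlg π ∧ ConjSelfDual 𝒦 π ∧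
    {v | v ∉ 𝒦.ramR R ∧ v ∉ 𝒦.ram π ∧ 𝒦.sat π v ≠ 𝒦.frob R v}.Finite

/-- the same with all `v ∈ P` at which `R` and `π` are unramified -/
def IsStronglyAutomorphic (𝒦 : CMField P X U) (R : 𝒦.Pair) : Prop :=
  ∃ π : 𝒦.Rep, 𝒦.deg π = 𝒦.dim R ∧ 𝒦.IsAlg π ∧ ConjSelfDual 𝒦 π ∧
    ∀ v, v ∉ 𝒦.ramR R → v ∉ 𝒦.ram π → 𝒦.sat π v = 𝒦.frob R v

/-- `τ` has the right parity for `(R, Ψ)`, so that `(R ⊗ τ, Ψ det τ⁻¹)` is totally odd, and no character in `D_τ`
except `1` is a self-twist of `R` or is in `E` -/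
def Fits (𝒦 : CMField P X U) (R : 𝒦.Pair) (E : Finset X) (τ : 𝒦.Tw) : Prop :=
  𝒦.par τ = 𝒦.sign R ∧ ∀ δ ∈ 𝒦.grp τ, δ ∈ 𝒦.selfTwist R ∨ δ ∈ E → δ = 1

/-- `J` is a pairing with `ᵗR(g) J R(c g c) = μ(g) J` for `g ∈ H` -/
def IsPairing {G : Type} [Group G] (H : Subgroup G) {Ω : Type} [Field Ω] {n : Type} [Fintype n] (c : G)
    (R : G → Matrix n n Ω) (μ : G → Ω) (J : Matrix n n Ω) : Prop :=
  ∀ g ∈ H, (R g)ᵀ * J * R (c * g * c) = μ g • J

theorem result :
    (∀ (P X U : Type) [CommGroup X] [Infinite P] (𝒦 : CMField P X U),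
      -- (1)
      (∀ m : ℕ, (∀ R' : 𝒦.Pair, 𝒦.dim R' = 2 * m → TotallyOdd 𝒦 R' → IsStronglyAutomorphic 𝒦 R') →
        ∀ R : 𝒦.Pair, 𝒦.dim R = m → IsStronglyAutomorphic 𝒦 R) ∧
      -- (2)
      (∀ k : ℕ, (∀ R : 𝒦.Pair, IsStronglyAutomorphic 𝒦 R) ↔
        ∀ R : 𝒦.Pair, 2 ^ k ∣ 𝒦.dim R → TotallyOdd 𝒦 R → IsStronglyAutomorphic 𝒦 R) ∧
      -- (3)
      (∀ m : ℕ, (∀ R' : 𝒦.Pair, 𝒦.dim R' = 2 * m → TotallyOdd 𝒦 R' → IsAutomorphic 𝒦 R') →
        ∀ R : 𝒦.Pair, 𝒦.dim R = m → ∃ (π : 𝒦.Rep) (E : Finset X), 𝒦.deg π = 𝒦.dim R ∧ 𝒦.IsAlg π ∧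
          𝒦.conj π = 𝒦.twist (𝒦.mult R)⁻¹ (𝒦.dual π) ∧ ∀ τ, Fits 𝒦 R E τ →
            (∃ ρ, 𝒦.times τ π = {ρ} ∧ {v | 𝒦.sat ρ v ≠ tens (𝒦.frob R v) (𝒦.satT τ v)}.Finite) ∧
            {v | (∀ δ ∈ 𝒦.grp τ, 𝒦.value δ v = 1) ∧ 𝒦.sat π v ≠ 𝒦.frob R v}.Finite)) ∧
    -- (4)
    (∀ (G : Type) [Group G] (H : Subgroup G) (Ω : Type) [Field Ω] (n : Type) [Fintype n] [DecidableEq n] (c : G)
      (R : G → Matrix n n Ω) (μ : G → Ω) (J : Matrix n n Ω) (ε : Ω) (τ : G →* Matrix (Fin 2) (Fin 2) Ω),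
      c * c = 1 → IsPairing H c R μ J → Jᵀ = ε • J →
        IsPairing H c (fun g => kroneckerMap (· * ·) (R g) (τ g)) (fun g => μ g * (τ g).det)
          (kroneckerMap (· * ·) J (!![0, 1; -1, 0] * τ c)) ∧
        (kroneckerMap (· * ·) J (!![0, 1; -1, 0] * τ c))ᵀ =
          (ε * - (τ c).det) • kroneckerMap (· * ·) J (!![0, 1; -1, 0] * τ c)) := by
  classical
  refine ⟨fun P X U _ _ 𝒦 => ?_, ?_⟩
  · -- the pair `(R ⊗ τ, Ψ det τ⁻¹)`
    have hodd : ∀ (R R' : 𝒦.Pair) (τ : 𝒦.Tw), 𝒦.par τ = 𝒦.sign R → (∀ u, 𝒦.sign R' u = 𝒦.sign R u * 𝒦.par τ u) →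
        TotallyOdd 𝒦 R' := by
      intro R R' τ h1 h2 u
      rw [h2, h1, ← sq]
      exact Int.units_sq _
    have hdeg : ∀ {R : 𝒦.Pair} {τ : 𝒦.Tw} {π : 𝒦.Rep}, {v | spread 𝒦.toCuspidals (𝒦.grp τ) v (𝒦.sat π v) ≠
        spread 𝒦.toCuspidals (𝒦.grp τ) v (𝒦.frob R v)}.Finite → 𝒦.deg π = 𝒦.dim R := by
      intro R τ π hS
      obtain ⟨v, hv⟩ := ((hS.union (𝒦.ramR_finite R)).union (𝒦.ram_finite π)).infinite_compl.nonempty
      simp only [Set.mem_compl_iff, Set.mem_union, not_or] at hv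
      obtain ⟨⟨h1, h2⟩, h3⟩ := hv
      have h4 : spread 𝒦.toCuspidals (𝒦.grp τ) v (𝒦.sat π v) = spread 𝒦.toCuspidals (𝒦.grp τ) v (𝒦.frob R v) := by
        by_contra h
        exact h1 h
      have h5 := congrArg Multiset.card h4
      rw [card_spread, card_spread, 𝒦.card_sat π v h3, 𝒦.card_frob R v h2] at h5
      exact Nat.eq_of_mul_eq_mul_right (Nat.pos_of_ne_zero (card_grp_ne 𝒦 τ)) h5
    have part1 : ∀ m : ℕ, (∀ R' : 𝒦.Pair, 𝒦.dim R' = 2 * m → TotallyOdd 𝒦 R' → IsStronglyAutomorphic 𝒦 R') →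
        ∀ R : 𝒦.Pair, 𝒦.dim R = m → IsStronglyAutomorphic 𝒦 R := by
      intro m hm R hR
      have hex : ∀ τ : Good 𝒦 R, ∃ π' : 𝒦.Rep, 𝒦.IsAlg π' ∧
          (∀ v, v ∉ 𝒦.ramR R → v ∉ 𝒦.ramT τ.1 → v ∉ 𝒦.ram π' →
            𝒦.sat π' v = tens (𝒦.frob R v) (𝒦.satT τ.1 v)) := by
        intro τ
        obtain ⟨R', h1, h2, h3, h4⟩ := 𝒦.tensor R τ.1 τ.2.2
        obtain ⟨π', -, h5, -, h6⟩ := hm R' (by rw [h1, hR]) (hodd R R' τ.1 τ.2.1 h4)
        refine ⟨π', h5, fun v a1 a2 a3 => ?_⟩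
        rw [h6 v (fun h => ?_) a3, h3 v a1 a2]
        rcases h2 h with h | h
        · exact a1 h
        · exact a2 h
      choose Q hQalg hQ using hex
      have hQfin : ∀ τ, {v | 𝒦.sat (Q τ) v ≠ tens (𝒦.frob R v) (𝒦.satT τ.1 v)}.Finite := by
        intro τ
        refine (((𝒦.ramR_finite R).union (𝒦.ramT_finite τ.1)).union (𝒦.ram_finite (Q τ))).subset fun v hv => ?_
        by_contra hcon
        simp only [Set.mem_union, not_or] at hcon
        exact hv (hQ τ v hcon.1.1 hcon.1.2 hcon.2)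
      obtain ⟨π, E, hE⟩ := key 𝒦 R Q hQfin
      have hv0 : Nonempty P := inferInstance
      obtain ⟨τ₀, hτ₀, -⟩ := good_exists 𝒦 R E hv0.some
      refine ⟨π, hdeg (key_spread 𝒦 hQfin (hE τ₀ hτ₀).1), 𝒦.alg_times τ₀.1 π (Q τ₀) (hE τ₀ hτ₀).2 (hQalg τ₀),
        ⟨(𝒦.mult R)⁻¹, 𝒦.norms.inv_mem (𝒦.mult_mem R), key_dual 𝒦 hQfin fun τ hτ => (hE τ hτ).1⟩,
        fun v hv1 hv2 => ?_⟩
      obtain ⟨τ, hτ, hv3, hv4⟩ := good_exists 𝒦 R E v
      have hD : ∀ δ ∈ 𝒦.grp τ.1, v ∉ 𝒦.ramX δ := fun δ hδ h => hv3 (𝒦.ramX_grp τ.1 δ hδ h)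
      have hπ : ∀ ρ ∈ ({π} : Multiset 𝒦.Rep), v ∉ 𝒦.ram ρ := fun ρ hρ => by rwa [Multiset.mem_singleton.1 hρ]
      have h4 := ram_norm 𝒦.toCuspidals hD hπ
      rw [← (hE τ hτ).1] at h4
      obtain ⟨h5, h6⟩ := 𝒦.timesDual_spec τ.1 (Q τ) v hv3 h4
      have h7 : param 𝒦.toCuspidals (𝒦.timesDual τ.1 (Q τ)) v = tens (𝒦.sat (Q τ) v) (invs (𝒦.satT τ.1 v)) := h6
      rw [(hE τ hτ).1, param_norm 𝒦.toCuspidals hD hπ, param_singleton, hQ τ v hv1 hv3 h5, tens_tens_dual 𝒦 hv3,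
        spread_trivial _ hv4, spread_trivial _ hv4] at h7
      exact nsmul_inj (card_grp_ne 𝒦 τ.1) h7
    refine ⟨part1, fun k => ⟨fun h R _ _ => h R, ?_⟩, ?_⟩
    · induction k with
      | zero =>
        intro h R
        exact part1 _ (fun R' _ h2 => h R' (by simp) h2) R rfl
      | succ k ih =>
        intro h
        refine ih fun R hR _ => part1 _ (fun R' h1 h2 => h R' ?_ h2) R rfl
        rw [h1, pow_succ, mul_comm 2 _]
        exact Nat.mul_dvd_mul_right hR 2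
    · intro m hm R hR
      have hex : ∀ τ : Good 𝒦 R, ∃ π' : 𝒦.Rep, 𝒦.IsAlg π' ∧
          {v | 𝒦.sat π' v ≠ tens (𝒦.frob R v) (𝒦.satT τ.1 v)}.Finite := by
        intro τ
        obtain ⟨R', h1, h2, h3, h4⟩ := 𝒦.tensor R τ.1 τ.2.2
        obtain ⟨π', -, h5, -, h6⟩ := hm R' (by rw [h1, hR]) (hodd R R' τ.1 τ.2.1 h4)
        refine ⟨π', h5, (((h6.union (𝒦.ramR_finite R)).union (𝒦.ramT_finite τ.1)).union
          (𝒦.ram_finite π')).subset fun v hv => ?_⟩
        by_contra hcon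
        simp only [Set.mem_union, not_or] at hcon
        obtain ⟨⟨⟨a1, a2⟩, a3⟩, a4⟩ := hcon
        refine a1 ⟨fun h => ?_, a4, fun h => hv ?_⟩
        · rcases h2 h with h | h
          · exact a2 h
          · exact a3 h
        · rw [h, h3 v a2 a3]
      choose Q hQalg hQfin using hex
      obtain ⟨π, E, hE⟩ := key 𝒦 R Q hQfin
      have hv0 : Nonempty P := inferInstance
      obtain ⟨τ₀, hτ₀, -⟩ := good_exists 𝒦 R E hv0.some
      refine ⟨π, E, hdeg (key_spread 𝒦 hQfin (hE τ₀ hτ₀).1),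
        𝒦.alg_times τ₀.1 π (Q τ₀) (hE τ₀ hτ₀).2 (hQalg τ₀), key_dual 𝒦 hQfin fun τ hτ => (hE τ hτ).1,
        fun τ hτ => ?_⟩
      have hself : Avoids (𝒦.grp τ) (𝒦.selfTwist R) := fun δ hδ h => hτ.2 δ hδ (Or.inl h)
      have hE' : Avoids (𝒦.grp τ) E := fun δ hδ h => hτ.2 δ hδ (Or.inr h)
      let τ' : Good 𝒦 R := ⟨τ, hτ.1, hself⟩
      refine ⟨⟨Q τ', (hE τ' hE').2, hQfin τ'⟩, ?_⟩
      refine (key_spread 𝒦 hQfin (hE τ' hE').1).subset fun v hv hcon => hv.2 ?_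
      refine nsmul_inj (card_grp_ne 𝒦 τ) ?_
      rw [← spread_trivial 𝒦.toCuspidals hv.1, ← spread_trivial 𝒦.toCuspidals hv.1]
      exact hcon
  · intro G _ H Ω _ n _ _ c R μ J ε τ hc hJ hε
    have hcc : τ c * τ c = 1 := by rw [← map_mul, hc, map_one]
    constructor
    · intro g hg
      have h1 : (τ g)ᵀ * (!![0, 1; -1, 0] * τ c) * τ (c * g * c) = (τ g).det • (!![0, 1; -1, 0] * τ c) := by
        rw [map_mul, map_mul]
        have h2 : (τ g)ᵀ * (!![0, 1; -1, 0] * τ c) * (τ c * τ g * τ c) =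
            ((τ g)ᵀ * !![0, 1; -1, 0] * ((τ c * τ c) * τ g)) * τ c := by
          simp only [Matrix.mul_assoc]
        rw [h2, hcc, Matrix.one_mul]
        have h3 : (τ g)ᵀ * !![0, 1; -1, 0] * τ g = (τ g).det • !![0, 1; -1, 0] := alt_conj (τ g)
        rw [h3, Matrix.smul_mul]
      change (kroneckerMap (· * ·) (R g) (τ g))ᵀ * kroneckerMap (· * ·) J (!![0, 1; -1, 0] * τ c) *
        kroneckerMap (· * ·) (R (c * g * c)) (τ (c * g * c)) = (μ g * (τ g).det) • _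
      rw [← kroneckerMap_transpose, ← Matrix.mul_kronecker_mul, ← Matrix.mul_kronecker_mul, hJ g hg, h1,
        Matrix.smul_kronecker, Matrix.kronecker_smul, smul_smul]
    · rw [← kroneckerMap_transpose, hε]
      have h1 : (!![0, 1; -1, 0] * τ c)ᵀ = (- (τ c).det) • (!![0, 1; -1, 0] * τ c) := by
        rw [Matrix.transpose_mul]
        have h2 : (!![0, 1; -1, 0] : Matrix (Fin 2) (Fin 2) Ω)ᵀ = - !![0, 1; -1, 0] := alt_transpose
        have h3 : (τ c)ᵀ * !![0, 1; -1, 0] = (τ c).det • (!![0, 1; -1, 0] * τ c) := alt_conj_sq hcc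
        rw [h2, Matrix.mul_neg, h3, neg_smul]
      rw [h1, Matrix.smul_kronecker, Matrix.kronecker_smul, smul_smul]

end Pool.Agent.Results.MP_adf543_nt.TotallyOddPairs
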